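import Mathlib
import Pool.Agent.P8H96.RL.All

/-!
# Rémond's inequality for algebraic integers with crowded conjugates

A complex polynomial `p` of degree `d` is called `A`-crowded when every zero `z` with
`log |z| ≥ A / d` has, inside the angle of half width `A log |z|` around `z`, at least
`(d / A) log |z|` zeros `w` of comparable height (`log |w| ≥ (log |z|) / A`). There is no condition
on the zeros with `log |z| < A / d`.

Let `α` be an algebraic integer, not zero and not a root of unity, of degree `D` over the field
`ℚ(μ_∞)` generated by all roots of unity, and let all the conjugates of the minimal polynomial of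
`α` over `ℚ(μ_∞)` be `A`-crowded. Then `h(α) ≥ 1 / (5760 A ^ 3 D)`. More generally, let `L` be any
subfield of an extension `F` of degree `e` of `ℚ(μ_∞)`, for instance `L = K(Γ)` for a number field
`K` and a group `Γ` of points of the multiplicative group with `K(Γ) ⊂ F` (such as `Γ = μ_∞`,
`F = K(μ_∞)`), and let `D_L` be the degree of `α` over `L`. Then

  `h(α) ≥ 1 / (5760 A ^ 3 e D_L)`.

This is Rémond's inequality `h(α) ≥ c / D_L` for these groups `Γ` and these points `α` of the
multiplicative group, with a constant which depends on `A` and `e` only.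

Method: the area form of the quadratic mean inequality relative to all roots of unity (see
`QuadraticMean`): for a monic polynomial `f` of degree `d` over a cyclotomic field `k` the mean,
over the embeddings of `k`, of the area under the roof of the zeros of the conjugates of `f` is at
least `1 / (640 d)`. The crowding condition bounds the area by the sum of the `log⁺ |z|`.

Proved with helper4, helper20, helper44, helper53, helper62 and helper76.
-/

set_option autoImplicit false

open Polynomial

namespace Pool.Agent.Results.MP_187c26_nt.CrowdedConjugates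

/-- the field generated by all roots of unity -/
noncomputable def cyclotomicClosure : IntermediateField ℚ (AlgebraicClosure ℚ) :=
  IntermediateField.adjoin ℚ {ζ | ∃ n : ℕ, 0 < n ∧ ζ ^ n = 1}

/-- every zero of height at least `A / d` has the proportional number of comparable neighbours -/
def Crowded (A : ℝ) (p : ℂ[X]) : Prop :=
  ∀ z ∈ p.roots, A ≤ p.natDegree * Real.log ‖z‖ →
    p.natDegree * Real.log ‖z‖ ≤ A * ((p.roots.filter fun w => Real.log ‖z‖ ≤ A * Real.log ‖w‖ ∧
        ‖((w.arg - z.arg : ℝ) : AddCircle (2 * Real.pi))‖ ≤ A * Real.log ‖z‖).card : ℝ)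

/-- **Rémond's inequality for algebraic integers with crowded conjugates.** -/
theorem result (A : ℝ) (hA : 1 ≤ A) (α : AlgebraicClosure ℚ) (hα : IsIntegral ℤ α) (h0 : α ≠ 0)
    (h1 : ∀ n : ℕ, 0 < n → α ^ n ≠ 1)
    (hcr : ∀ τ : cyclotomicClosure →+* ℂ, Crowded A ((minpoly cyclotomicClosure α).map τ))
    (F : IntermediateField cyclotomicClosure (AlgebraicClosure ℚ))
    (hF : FiniteDimensional cyclotomicClosure F)
    (L : IntermediateField ℚ (AlgebraicClosure ℚ)) (hL : ∀ x ∈ L, x ∈ F) :
    1 / (5760 * A ^ 3 * ((Module.finrank cyclotomicClosure F : ℝ) * (minpoly L α).natDegree)) ≤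
      NumberField.absLogHeight₁ α := by
  have h2 := Pool.Agent.P8H96.RL.Fin.crowded Pool.Agent.P8H96.RL.s_main
    Pool.Agent.P8H96.RL.X.al1 Pool.Agent.P8H96.RL.X.al2 Pool.Agent.P8H20.RL.crw α hα h0 h1 A hA hcr
  have h3 := Pool.Agent.P8H44.RL.deg F hF L hL α
  have h4 : (((minpoly Pool.Agent.P8H96.RL.Qab α).natDegree : ℕ) : ℝ) ≤
      (Module.finrank cyclotomicClosure F : ℝ) * (minpoly L α).natDegree := by
    exact_mod_cast h3
  have h5 : (0 : ℝ) < ((minpoly Pool.Agent.P8H96.RL.Qab α).natDegree : ℝ) := by
    exact_mod_cast minpoly.natDegree_pos (hα.tower_top (A := Pool.Agent.P8H96.RL.Qab))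
  rw [Pool.Agent.P8H53.RL.ht α hα]
  refine le_trans ?_ h2
  apply one_div_le_one_div_of_le (by positivity)
  have hA3 : (0 : ℝ) ≤ 5760 * A ^ 3 := by positivity
  exact mul_le_mul_of_nonneg_left h4 hA3

end Pool.Agent.Results.MP_187c26_nt.CrowdedConjugates
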