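import Mathlib
import Pool.Agent.P8H96.RL.All

/-!
# Lehmer's inequality in quadratic mean, relative to all roots of unity

Let `α` be an algebraic integer, not zero and not a root of unity, with conjugates
`α_1, ..., α_n` over `ℚ`, and let `D` be the degree of `α` over the field `ℚ(μ_∞)` generated by all
roots of unity. Then

  `(1 / n) ∑ (log⁺ |α_i|) ^ 2 ≥ 1 / (640 D ^ 2)`.

More generally, let `L` be any subfield of an extension `F` of degree `e` of `ℚ(μ_∞)`, for instance
`L = K(Γ)` for a number field `K` and a group `Γ` of points of the multiplicative group with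
`K(Γ) ⊂ F` (such as `Γ = μ_∞`, `F = K(μ_∞)`). If `D_L` is the degree of `α` over `L` then

  `(1 / n) ∑ (log⁺ |α_i|) ^ 2 ≥ 1 / (640 e ^ 2 D_L ^ 2)`.

Rémond's inequality (for the multiplicative group and these `Γ`; Lehmer's problem relative to
`K(Γ)`) is the same inequality for the arithmetic mean, `(1 / n) ∑ log⁺ |α_i| ≥ c / D_L`. In
particular the house of `α` satisfies `max log |α_i| ≥ 1 / (26 e D_L)`, which is the
Schinzel-Zassenhaus inequality relative to all roots of unity.

Method. As in Dimitrov's proof of the Schinzel-Zassenhaus conjecture one looks for a power series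
`√(A B)` with integral coefficients, now in a cyclotomic field `k`. With `R` the reversed minimal
polynomial over `k` and `R_2`, `R_4` its Graeffe transforms, `√(φ(R_2) R_4)` has coefficients in
`𝓞 k` if `φ` is an automorphism with `φ x ≡ x ^ 2` modulo `2` for the coefficients of `R`; where `2`
is ramified one takes `√(R_2 s(R_2))` for an automorphism `s` with `s x ≡ x` modulo `2`. The Hankel
determinants are bounded at every embedding of `k` by a weighted energy inequality adapted to the
heights of the spikes (starting file `L2Lehmer`, `AreaBound`); the product of the bounds is less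
than one, so they vanish and the series is rational. This is impossible, or else a multiple of `α`
by a root of unity or the square of `α` has smaller conductor or smaller degree, and one descends.

Proved with helper4, helper20, helper44, helper53, helper62 and helper76.
-/

set_option autoImplicit false

open Polynomial

namespace Pool.Agent.Results.MP_187c26_nt.QuadraticMean

/-- the field generated by all roots of unity -/
noncomputable def cyclotomicClosure : IntermediateField ℚ (AlgebraicClosure ℚ) :=
  IntermediateField.adjoin ℚ {ζ | ∃ n : ℕ, 0 < n ∧ ζ ^ n = 1}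

/-- **The quadratic mean form of Lehmer's inequality relative to all roots of unity.** -/
theorem result (α : AlgebraicClosure ℚ) (hα : IsIntegral ℤ α) (h0 : α ≠ 0)
    (h1 : ∀ n : ℕ, 0 < n → α ^ n ≠ 1)
    (F : IntermediateField cyclotomicClosure (AlgebraicClosure ℚ))
    (hF : FiniteDimensional cyclotomicClosure F)
    (L : IntermediateField ℚ (AlgebraicClosure ℚ)) (hL : ∀ x ∈ L, x ∈ F) :
    1 / (640 * ((Module.finrank cyclotomicClosure F : ℝ) * (minpoly L α).natDegree) ^ 2) ≤
      (((minpoly ℤ α).map (Int.castRingHom ℂ)).roots.map fun z => (Real.posLog ‖z‖) ^ 2).sum /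
        (minpoly ℤ α).natDegree := by
  have h2 := Pool.Agent.P8H96.RL.Fin.quad Pool.Agent.P8H96.RL.s_main Pool.Agent.P8H96.RL.X.al1
    Pool.Agent.P8H96.RL.X.al2 Pool.Agent.P8H44.RL.sum2 α hα h0 h1
  have h3 := Pool.Agent.P8H44.RL.deg F hF L hL α
  have h4 : (((minpoly Pool.Agent.P8H96.RL.Qab α).natDegree : ℕ) : ℝ) ≤
      (Module.finrank cyclotomicClosure F : ℝ) * (minpoly L α).natDegree := by
    exact_mod_cast h3
  have h5 : (0 : ℝ) < ((minpoly Pool.Agent.P8H96.RL.Qab α).natDegree : ℝ) := by
    exact_mod_cast minpoly.natDegree_pos (hα.tower_top (A := Pool.Agent.P8H96.RL.Qab))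
  refine le_trans ?_ h2
  apply one_div_le_one_div_of_le (by positivity)
  have h6 := pow_le_pow_left₀ h5.le h4 2
  linarith

end Pool.Agent.Results.MP_187c26_nt.QuadraticMean
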