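import Mathlib
import Pool.Agent.P8H96.RR.All

/-!
# Rémond's inequality for algebraic integers with large relative discriminant or repelling conjugates

Let `z` be an algebraic integer, `z ≠ 0`, not a root of unity, of degree `D` over the field
`ℚ(μ_∞)` of all roots of unity. Its minimal polynomial over `ℚ(μ_∞)` is `F(ω₀, X)` for some monic
`F ∈ ℤ[T][X]` and some primitive `m`-th root of unity `ω₀`; the conjugates of this polynomial over
`ℚ` are the polynomials `F(ω, X)`, `ω` running over the primitive `m`-th roots of unity. The means
below are means over these `ω`. There is an absolute constant `c > 0` such that the following holds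
for all `A ≥ 0`. Assume that

* the mean of `log |disc F(ω, X)|` is at least `D (log D - A)`, in other words the norm from `ℚ(ζ_m)`
  to `ℚ` of the discriminant of the minimal polynomial is at least `(D / e ^ A) ^ (D φ(m))`, or, more
  generally,
* the mean of the truncated energies of the zeros of the `F(ω, X)` is at most `A D` (the truncated
  energy is the sum of `-log max (|x - y|, 1 / D)` over all ordered pairs of zeros).

Let `E` be an extension of degree `e` of `ℚ(μ_∞)` and let `L` be any subfield of `E`, for instance
`L = E = K(μ_∞)` for a number field `K` (then `e ≤ [K : ℚ]`). Then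

  `[L(z) : L] * h(z) ≥ (c / e) / (1 + A) ^ 6`.

The order `m` does not matter. The largest possible value of the discriminant for zeros in the closed
unit disc is `D ^ D`; only for discriminants greater than `D ^ D` the inequality of Mahler gives a
lower bound for the height. The norm of the relative discriminant is at least one, so the case
`A = log D` is an inequality `D h(z) ≥ c / (1 + log D) ^ 6` for all `z`.

In the terms of Rémond's question this is the case `G = 𝔾_m`, `Γ` a group with `L = K(Γ) ⊆ E` (for
instance the group of all roots of unity), `V = {z}`: the obstruction index is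
`ω_{K(Γ)}(V) = [K(Γ)(z) : K(Γ)]` and the essential minimum is the height `h(z)`.

Method. The energy of the zeros at the scale `1 / (2 D)` controls the energy at all smaller scales,
because the Poisson kernels at the different scales are comparable (starting file `RepellingZeros` of
the problem `MP_7ab245_nt`, where this is used over `ℚ`). This is applied to each of the conjugates of
the minimal polynomial. It gives contractions of the conjugates of `z` with small total displacement
and bounded energy, to which the energy method relative to `ℚ(ζ_m)` of the starting file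
`RelativeLehmer` (for the prime powers of `z`, including the primes dividing `m`) applies. The energy
behaves well in the reductions of that method: replacing `z` by `ζ z`, replacing `m` by `m / p`, and
replacing `f(X ^ e)` by `f(X)`.

Proved with helper32; it uses the theorems of the authors of the starting file `RelativeLehmer`.
-/

set_option autoImplicit false

open Polynomial

namespace Pool.Agent.Results.MP_187c26_nt.RelativeDiscriminant

/-- the field `ℚ(μ_∞) ⊆ ℂ` generated by all roots of unity -/
noncomputable def QAb : IntermediateField ℚ ℂ :=
  IntermediateField.adjoin ℚ {z : ℂ | ∃ n : ℕ, 0 < n ∧ z ^ n = 1}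

/-- the polynomial `F(ω, X)`, for `F ∈ ℤ[T][X]` -/
noncomputable def spec {A : Type*} [CommRing A] (ω : A) (F : ℤ[X][X]) : A[X] :=
  F.map (aeval ω : ℤ[X] →ₐ[ℤ] A).toRingHom

/-- the absolute logarithmic height of an algebraic integer `z`: the logarithm of the Mahler measure
of its minimal polynomial over `ℤ`, divided by the degree -/
noncomputable def height (z : ℂ) : ℝ :=
  Real.log ((minpoly ℤ z).map (Int.castRingHom ℂ)).mahlerMeasure / (minpoly ℤ z).natDegree

/-- the mean of `f ω` over the primitive `m`-th roots of unity `ω` -/
noncomputable def mean (m : ℕ) (f : ℂ → ℝ) : ℝ := (∑ ω ∈ primitiveRoots m ℂ, f ω) / Nat.totient m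

/-- the truncated energy of the zeros of `p`: the sum of `-log max (|x - y|, 1 / d)` over all ordered
pairs `(x, y)` of zeros of `p`, where `d` is the degree of `p` -/
noncomputable def truncatedEnergy (p : ℂ[X]) : ℝ :=
  (p.roots.map fun x => (p.roots.map fun y => -Real.log (max ‖x - y‖ (1 / p.natDegree))).sum).sum

/-- **Rémond's inequality for algebraic integers with large relative discriminant or repelling
conjugates.** -/
theorem result : ∃ c : ℝ, 0 < c ∧ ∀ z : ℂ, IsIntegral ℤ z → z ≠ 0 →
    (∀ n : ℕ, 0 < n → z ^ n ≠ 1) →
    (∃ (m : ℕ) (ω₀ : QAb) (F : ℤ[X][X]), 0 < m ∧ IsPrimitiveRoot ω₀ m ∧ F.Monic ∧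
      minpoly QAb z = spec ω₀ F) ∧
    ∀ (m : ℕ) (ω₀ : QAb) (F : ℤ[X][X]), 0 < m → IsPrimitiveRoot ω₀ m → F.Monic →
      minpoly QAb z = spec ω₀ F → ∀ A : ℝ, 0 ≤ A →
      (mean m (fun ω => truncatedEnergy (spec ω F)) ≤ A * F.natDegree ∨
        F.natDegree * (Real.log F.natDegree - A) ≤
          mean m (fun ω => Real.log ‖(spec ω F).discr‖)) →
      ∀ (E : IntermediateField QAb ℂ) [FiniteDimensional QAb E] (L : IntermediateField ℚ ℂ),
        (∀ x ∈ L, x ∈ E) →
        c / Module.finrank QAb E / (1 + A) ^ 6 ≤ (minpoly L z).natDegree * height z := by
  obtain ⟨c, hc, h⟩ := Pool.Agent.P8H96.RR.s_alg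
  refine ⟨c, hc, ?_⟩
  intro z hz h0 hroot
  obtain ⟨h1, h2⟩ := h z hz h0 hroot
  refine ⟨?_, ?_⟩
  · obtain ⟨m, ω₀, F, hm, hω, hF, heq⟩ := h1
    exact ⟨m, ω₀, F, hm, hω, hF, heq.symm⟩
  · intro m ω₀ F hm hω hF heq A hA hcond E hE L hL
    exact @h2 m ω₀ F hm hω hF heq.symm A hA hcond E hE L hL

end Pool.Agent.Results.MP_187c26_nt.RelativeDiscriminant
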