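import Mathlib
import Pool.Agent.P8H96.SP.All

/-!
# Rémond's inequality for zeros of polynomials with few monomials

Let `z` be an algebraic integer, `z ≠ 0`, let `L` be any algebraic extension of `ℚ`, and let `F` be a
nonzero polynomial with coefficients in `L` such that `F(z) = 0`, of degree `N`, with `s` nonzero
coefficients. For instance `F` may be the minimal polynomial of `z` over `L`; then `N = [L(z) : L]`,
and the left side `N h(z)` of the inequalities below is the one of Rémond's question (`G = 𝔾_m`,
`V = {z}`, `L = K(Γ)`). There is no condition on the coefficients, on the exponents or on the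
degree of `F`.

* Part 1 (every `L`, so `L = K(Γ)` for every number field `K` and every group `Γ`, of finite or
  infinite rank). Either `N h(z) > 1 / (256 s ^ 2)`, or there is a power `z ^ m` with `1 ≤ m ≤ N` of
  degree at most `60 s ^ 2 (1 + log s)` over `L`. So a positive lower bound for the heights of
  the points of bounded degree over `K(Γ)` outside the division group of `Γ` implies Rémond's
  inequality for the integers which are zeros of polynomials with a bounded number of monomials.

* Part 2. There is an absolute constant `c > 0` such that, if `z` is not a root of unity and `L` is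
  contained in an extension of degree `e` of the field `ℚ(μ_∞)` generated by all roots of unity
  (for instance `L = K(μ_∞)`, `e ≤ [K : ℚ]`),

    `N h(z) ≥ c / (e (1 + log e) ^ 6) / (s ^ 2 (log (2 s)) ^ 7)`.

* Part 3. Let `K` be a number field, `Γ` a finitely generated subgroup of `ℚ̄*` and `P` a finite set of
  primes. There is `A > 0` such that, for every subfield `L` of the field generated over `K` by
  all roots of unity and all `n`-th roots of elements of `Γ`, `n` a product of primes of `P`,
  and for every `z` which does not lie in the division group of `Γ`,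

    `N h(z) ≥ 1 / (A s ^ A)`.

  This is Rémond's inequality, with a constant that depends polynomially on the number of monomials
  only, for all groups of finite rank between `Γ` and the group of these roots.

Method. Let `k ⊆ L` be a number field that contains the coefficients. For every embedding `σ` of
`k` the relation `F(z) = 0` makes the Gram matrix of the vectors `(τ(z) / |τ(z)|) ^ j` singular up to a
small error, `τ` running over the embeddings over `σ` and `j` over the `s` exponents. Hence one power
`y = z ^ m` is such that the mean of the conjugates of `y` over `σ` is at least about `1 / (2 s)` in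
quadratic mean over `σ`. The energy inequality, summed over the embeddings of `k`, with the norm from
`k` to `ℚ` of the discriminant of the minimal polynomial of `y`, shows that this is impossible if the
degree of `y` over `k` is large. For Part 2 one then uses an inequality of the form
`d h(y) ≥ c / (1 + log d) ^ 6` relative to `ℚ(μ_∞)` (the case of integral discriminants of the theorem
`RelativeDiscriminant`), for Part 3 the starting file `SmoothRootsPoly` of `MP_f61260_nt`.

Proved with helper4, helper20, helper41, helper76, helper80 and helper84.
-/

set_option autoImplicit false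

open Polynomial

namespace Pool.Agent.Results.MP_187c26_nt.SparsePolynomials

/-- the field `ℚ(μ_∞)` generated by all roots of unity -/
noncomputable def cyclotomicClosure : IntermediateField ℚ (AlgebraicClosure ℚ) :=
  IntermediateField.adjoin ℚ {ζ | ∃ n : ℕ, 0 < n ∧ ζ ^ n = 1}

/-- `β` lies in the division group of `Γ`: a positive power of `β` is an element of `Γ` -/
def InDivisionGroup (Γ : Subgroup (AlgebraicClosure ℚ)ˣ) (β : AlgebraicClosure ℚ) : Prop :=
  ∃ n : ℕ, 0 < n ∧ ∃ g ∈ Γ, β ^ n = (g : AlgebraicClosure ℚ)

/-- the field generated over `K` by all roots of unity and by all `n`-th roots of all elements of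
`Γ`, for all positive integers `n` all of whose prime factors belong to `P` -/
noncomputable def smoothRootField (K : IntermediateField ℚ (AlgebraicClosure ℚ))
    (Γ : Subgroup (AlgebraicClosure ℚ)ˣ) (P : Finset ℕ) :
    IntermediateField ℚ (AlgebraicClosure ℚ) :=
  K ⊔ IntermediateField.adjoin ℚ
    ({y | ∃ n : ℕ, 0 < n ∧ y ^ n = 1} ∪
      {y | ∃ n : ℕ, (0 < n ∧ ∀ q : ℕ, q.Prime → q ∣ n → q ∈ P) ∧
        ∃ g ∈ Γ, y ^ n = (g : AlgebraicClosure ℚ)})

/-- **Rémond's inequality for zeros of polynomials with few monomials.** -/
theorem result :
    (∀ (L : IntermediateField ℚ (AlgebraicClosure ℚ)) (z : AlgebraicClosure ℚ),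
      IsIntegral ℤ z → z ≠ 0 → ∀ F : L[X], F ≠ 0 → aeval z F = 0 →
        1 / (256 * (F.support.card : ℝ) ^ 2) < F.natDegree * NumberField.absLogHeight₁ z ∨
        ∃ m : ℕ, 1 ≤ m ∧ m ≤ F.natDegree ∧ ((minpoly L (z ^ m)).natDegree : ℝ) ≤
          60 * (F.support.card : ℝ) ^ 2 * (1 + Real.log F.support.card)) ∧
    (∃ c : ℝ, 0 < c ∧
      ∀ (E : IntermediateField cyclotomicClosure (AlgebraicClosure ℚ)),
        FiniteDimensional cyclotomicClosure E →
        ∀ (L : IntermediateField ℚ (AlgebraicClosure ℚ)), (∀ x ∈ L, x ∈ E) →
        ∀ z : AlgebraicClosure ℚ, IsIntegral ℤ z → z ≠ 0 → (∀ n : ℕ, 0 < n → z ^ n ≠ 1) →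
        ∀ F : L[X], F ≠ 0 → aeval z F = 0 →
          c / (Module.finrank cyclotomicClosure E *
                (1 + Real.log (Module.finrank cyclotomicClosure E)) ^ 6) /
              ((F.support.card : ℝ) ^ 2 * (Real.log (2 * F.support.card)) ^ 7) ≤
            F.natDegree * NumberField.absLogHeight₁ z) ∧
    (∀ (K : IntermediateField ℚ (AlgebraicClosure ℚ)), FiniteDimensional ℚ K →
      ∀ (Γ : Subgroup (AlgebraicClosure ℚ)ˣ), Γ.FG →
      ∀ (P : Finset ℕ), (∀ p ∈ P, p.Prime) →
        ∃ A : ℕ, 0 < A ∧ ∀ (L : IntermediateField ℚ (AlgebraicClosure ℚ)),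
          L ≤ smoothRootField K Γ P →
          ∀ z : AlgebraicClosure ℚ, IsIntegral ℤ z → z ≠ 0 → ¬ InDivisionGroup Γ z →
          ∀ F : L[X], F ≠ 0 → aeval z F = 0 →
            1 / ((A : ℝ) * (F.support.card : ℝ) ^ A) ≤
              F.natDegree * NumberField.absLogHeight₁ z) :=
  ⟨Pool.Agent.P8H96.SP.a', Pool.Agent.P8H96.SP.b', Pool.Agent.P8H96.SP.c'⟩

end Pool.Agent.Results.MP_187c26_nt.SparsePolynomials
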